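import Mathlib
import Pool.Agent.H25.GL.Div

/-!
# The divisor problem along dilations of a sequence: the dimension of the set of exceptional dilations, from both sides

Let `Δ(x) = ∑_{n ≤ x} d(n) - x log x - (2γ - 1)x` be the error term `Δ_2` of the Dirichlet divisor problem (the case
`k = 2` of the Piltz divisor problem), let `0 < τ ≤ 1/2` and let `u_k > 0` be a sequence with `∑ u_k^(-t) < ∞` for all
`t > τ` (for instance `u_k = k ^ (1/τ)`, and `u_k = k²` for `τ = 1/2`). Let `Bad θ lam u p q` be the set of the dilations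
`α ∈ (p, q)` such that `|Δ(x)| > x ^ θ` for some `x` with `|x - α u_k| ≤ (α u_k)^lam`, for infinitely many `k`.

1. Upper bound: for `0 < η ≤ 1/12` and `max (4η) (1/2 - 4η) ≤ lam ≤ 1/2` the set `Bad (1/4 + η) lam u p q` has
   Hausdorff dimension at most `(1/2 + τ - 6η)/(1 - lam)`.
2. So for almost all `α > 0` and all `ε > 0`: `|Δ(x)| ≤ x ^ (1/4 + (lam + τ - 1/2)/6 + ε)` for all `x` with
   `|x - α u_k| ≤ (α u_k)^lam`, for all large `k` (for every `1/2 - 2τ/5 ≤ lam ≤ 1/2` with `lam + τ < 1`).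
3. Lower bounds: suppose that `u_{k+1} ≤ u_k + C u_k^(1-τ)` for all large `k`.
   * If `|Δ(x)| > x ^ θ` for arbitrarily large `x`, then `Bad θ lam u p q` has dimension at least `τ/(1 - lam)`, for all
     `0 ≤ lam ≤ 1/2` and all `0 < p < q`.
   * For the points `α u_k` themselves: if `0 ≤ θ' < θ ≤ 1 - τ` and `|Δ(x)| > x ^ θ` for arbitrarily large `x`, then
     the set of the `α ∈ (p, q)` with `|Δ(α u_k)| > (α u_k) ^ θ'` for infinitely many `k` has dimension at least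
     `τ/(1 - θ)`.
   * Criterion: `Δ(x) = O(x ^ (1/4 + ε))` for all `ε > 0` if and only if for every `η > 0` there is an interval `(p, q)`
     in which the set of the `α` with `|Δ(α u_k)| > (α u_k) ^ (1/4 + η)` for infinitely many `k` has dimension less
     than `4τ/3`. (Less than `2/3` for `u_k = k²`.)

Method: for the upper bound Voronoi summation, Halász–Montgomery duality, the third derivative test for the kernel
`∑ e(s √m)` for its short blocks and the second derivative test for its long blocks, and coverings; for the lower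
bounds the monotonicity of `∑_{n ≤ x} d(n)` and a one-dimensional mass transference principle.
-/

set_option autoImplicit false

open Filter MeasureTheory

namespace Pool.Agent.Results.MP_bc6037_nt.DilationDimension

/-- the error term `Δ_2` of the divisor problem -/
noncomputable def Δ (x : ℝ) : ℝ :=
  (∑ n ∈ Finset.Icc 1 ⌊x⌋₊, (n.divisors.card : ℝ)) - x * Real.log x - (2 * Real.eulerMascheroniConstant - 1) * x

/-- the dilations `α` between `p` and `q` such that, for infinitely many `k`, `|Δ(x)| > x ^ θ` for some `x` within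
`(α u_k) ^ lam` of `α u_k` -/
def Bad (θ lam : ℝ) (u : ℕ → ℝ) (p q : ℝ) : Set ℝ :=
  {α | p < α ∧ α < q ∧ ∃ᶠ k in atTop, ∃ x : ℝ, |x - α * u k| ≤ (α * u k) ^ lam ∧ x ^ θ < |Δ x|}

/-- the dilations `α` between `p` and `q` such that `|Δ(α u_k)| > (α u_k) ^ θ` for infinitely many `k` -/
def BadPts (θ : ℝ) (u : ℕ → ℝ) (p q : ℝ) : Set ℝ :=
  {α | p < α ∧ α < q ∧ ∃ᶠ k in atTop, (α * u k) ^ θ < |Δ (α * u k)|}

theorem result (τ : ℝ) (hτ0 : 0 < τ) (hτ1 : τ ≤ 1 / 2) (u : ℕ → ℝ) (hu : ∀ k, 0 < u k)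
    (hsum : ∀ t : ℝ, τ < t → Summable (fun k => (u k) ^ (-t))) :
    -- upper bound for the dimension
    (∀ η lam : ℝ, 0 < η → η ≤ 1 / 12 → 4 * η ≤ lam → 1 / 2 - 4 * η ≤ lam → lam ≤ 1 / 2 → ∀ p q : ℝ, 0 < p → p < q →
      dimH (Bad (1 / 4 + η) lam u p q) ≤ ENNReal.ofReal ((1 / 2 + τ - 6 * η) / (1 - lam))) ∧
    -- almost all dilations
    (∀ lam : ℝ, 1 / 2 - 2 / 5 * τ ≤ lam → lam ≤ 1 / 2 → lam + τ < 1 → ∀ᵐ α : ℝ, 0 < α → ∀ ε : ℝ, 0 < ε →
      ∀ᶠ k in atTop, ∀ x : ℝ, |x - α * u k| ≤ (α * u k) ^ lam →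
        |Δ x| ≤ x ^ (1 / 4 + (lam + τ - 1 / 2) / 6 + ε)) ∧
    -- lower bounds, for sequences without large gaps
    (∀ C : ℝ, (∀ᶠ k in atTop, u (k + 1) ≤ u k + C * (u k) ^ (1 - τ)) →
      (∀ θ lam : ℝ, 0 ≤ lam → lam ≤ 1 / 2 → (∃ᶠ x in atTop, x ^ θ < |Δ x|) → ∀ p q : ℝ, 0 < p → p < q →
        ENNReal.ofReal (τ / (1 - lam)) ≤ dimH (Bad θ lam u p q)) ∧
      (∀ θ θ' : ℝ, 0 ≤ θ' → θ' < θ → θ ≤ 1 - τ → (∃ᶠ x in atTop, x ^ θ < |Δ x|) → ∀ p q : ℝ, 0 < p → p < q →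
        ENNReal.ofReal (τ / (1 - θ)) ≤ dimH (BadPts θ' u p q)) ∧
      -- the criterion
      ((∀ ε : ℝ, 0 < ε → ∃ K x₀ : ℝ, ∀ x : ℝ, x₀ ≤ x → |Δ x| ≤ K * x ^ (1 / 4 + ε)) ↔
        ∀ η : ℝ, 0 < η → ∃ p q : ℝ, 0 < p ∧ p < q ∧
          dimH (BadPts (1 / 4 + η) u p q) < ENNReal.ofReal (4 * τ / 3))) := by
  have hutop := Pool.Agent.H25.DV.top_of_sum hτ0.le u hu hsum
  have hgood : ∀ θ lam y : ℝ, (∃ x : ℝ, |x - y| ≤ y ^ lam ∧ x ^ θ < |Δ x|) ↔ ¬ Pool.Agent.H25.DV.GoodX θ lam y := by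
    intro θ lam y
    unfold Pool.Agent.H25.DV.GoodX
    push Not
    rfl
  refine ⟨?_, ?_, ?_⟩
  · intro η lam hη hη1 hl1 hl2 hl3 p q hp hpq
    have h := Pool.Agent.H25.DV.dim_x (β := 1 - 2 * lam) hτ0.le hη hη1 (by linarith) (by linarith) (by linarith)
      u hu hsum
    rw [show (1 - (1 - 2 * lam)) / 2 = lam by ring,
      show (1 + 2 * τ - 12 * η) / (1 + (1 - 2 * lam)) = (1 / 2 + τ - 6 * η) / (1 - lam) by
        rw [div_eq_div_iff (by linarith) (by linarith)]; ring] at h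
    refine le_trans (dimH_mono ?_) h
    rintro α ⟨h1, h2, h3⟩
    exact ⟨hp.trans h1, h3.mono (fun k hk => (hgood _ _ _).mp hk)⟩
  · intro lam hl1 hl2 hτl
    exact Pool.Agent.H25.GL.Dv.ae_near hτ0.le hτ1 hl2 hl1 hτl u hu hsum
  · intro C hgap
    refine ⟨?_, ?_, ?_⟩
    · intro θ lam hl0 hl1 hbig p q hp hpq
      refine le_trans (Pool.Agent.H25.GL.Dv.near_lower hτ0 hl0 (by linarith) (by linarith) hp hpq u hutop hgap hbig)
        (dimH_mono ?_)
      rintro α ⟨h1, h2, h3⟩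
      exact ⟨h1, h2, h3.mono (fun k hk => (hgood _ _ _).mpr hk)⟩
    · intro θ θ' hθ0 hθ hθ1 hbig p q hp hpq
      exact Pool.Agent.H25.GL.Dv.point_lower hτ0 hθ0 hθ (by linarith) (by linarith) hp hpq u hutop hgap hbig
    · have h := Pool.Agent.H25.GL.Dv.criterion (Θ := 1 / 4) hτ0 (by linarith) (by norm_num) u hutop hgap
      rw [show τ / (1 - 1 / 4) = 4 * τ / 3 by ring] at h
      exact h

end Pool.Agent.Results.MP_bc6037_nt.DilationDimension
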